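import Pool.Agent.KS6_84.Hld.Core

set_option autoImplicit false

namespace KS6_84.Hld

open MeasureTheory Filter Topology Metric Set Pool.Agent.H.MP_19b229_an
open scoped ENNReal NNReal

variable {N : ℕ}

/-- `μ` is the strong limit of signed measures `ν n` on `Ω` with `|ν n| ≤ c n • H^h`. -/
def StrongLimit (h : ℝ → ℝ) (Ω : Set (E N)) (μ : SignedMeasure (E N)) (c : ℕ → ℝ) : Prop :=
  ∃ ν : ℕ → SignedMeasure (E N), (∀ n, (ν n).totalVariation Ωᶜ = 0) ∧
    (∀ n : ℕ, (ν n).totalVariation ≤ ENNReal.ofReal (c n) • HM N h) ∧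
    Tendsto (fun n => (ν n - μ).totalVariation univ) atTop (𝓝 0)

lemma Dens.mono {h : ℝ → ℝ} {D : ℝ} (g : Gauge h D) {ρ : Measure (E N)} {C C' : ℝ} {x : E N}
    (hc : C ≤ C') (hd : Dens h ρ C x) : Dens h ρ C' x := by
  obtain ⟨η, h0, hx⟩ := hd
  exact ⟨η, h0, fun r hr => (hx r hr).trans (mul_le_mul_of_nonneg_right hc (g.pos r hr.1).le)⟩

lemma tv_restrict (μ : SignedMeasure (E N)) (T : Set (E N)) (hT : MeasurableSet T) :
    ∃ ν : SignedMeasure (E N), ν.totalVariation = μ.totalVariation.restrict T ∧
      (ν - μ).totalVariation = μ.totalVariation.restrict Tᶜ := by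
  set j := μ.toJordanDecomposition with hj
  have hm := j.mutuallySingular
  let j1 : JordanDecomposition (E N) :=
    { posPart := j.posPart.restrict T
      negPart := j.negPart.restrict T
      posPart_finite := inferInstance
      negPart_finite := inferInstance
      mutuallySingular := hm.mono_ac Measure.restrict_le_self.absolutelyContinuous
        Measure.restrict_le_self.absolutelyContinuous }
  let j2 : JordanDecomposition (E N) :=
    { posPart := j.negPart.restrict Tᶜ
      negPart := j.posPart.restrict Tᶜ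
      posPart_finite := inferInstance
      negPart_finite := inferInstance
      mutuallySingular := hm.symm.mono_ac Measure.restrict_le_self.absolutelyContinuous
        Measure.restrict_le_self.absolutelyContinuous }
  have hμ : μ = j.toSignedMeasure := (SignedMeasure.toSignedMeasure_toJordanDecomposition μ).symm
  have e2 : j1.toSignedMeasure - μ = j2.toSignedMeasure := by
    ext A hA
    rw [hμ]
    simp only [JordanDecomposition.toSignedMeasure, sub_apply,
      Measure.toSignedMeasure_apply_measurable hA, j1, j2]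
    have e3 : ∀ ρ : Measure (E N), IsFiniteMeasure ρ →
        (ρ.restrict T).real A + (ρ.restrict Tᶜ).real A = ρ.real A := fun ρ _ => by
      rw [← measureReal_add_apply, Measure.restrict_add_restrict_compl hT]
    have := e3 j.posPart inferInstance
    have := e3 j.negPart inferInstance
    linarith
  refine ⟨j1.toSignedMeasure, ?_, ?_⟩
  · rw [SignedMeasure.totalVariation, SignedMeasure.toJordanDecomposition_eq rfl,
      SignedMeasure.totalVariation, Measure.restrict_add]
  · rw [e2, SignedMeasure.totalVariation, SignedMeasure.toJordanDecomposition_eq rfl,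
      SignedMeasure.totalVariation, Measure.restrict_add, add_comm]

instance tv_fin (μ : SignedMeasure (E N)) : IsFiniteMeasure μ.totalVariation := by
  unfold SignedMeasure.totalVariation; infer_instance

/-- Finite upper densities give the strong approximation, with any constants tending to `∞`. -/
lemma approx {h : ℝ → ℝ} {D : ℝ} (g : Gauge h D) (Ω : Set (E N)) (μ : SignedMeasure (E N))
    (hμ : μ.totalVariation Ωᶜ = 0) (hd : ∀ᵐ x ∂μ.totalVariation, ∃ C, Dens h μ.totalVariation C x)
    (c : ℕ → ℝ) (hc : Tendsto c atTop atTop) : StrongLimit h Ω μ c := by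
  set ρ := μ.totalVariation with hρ
  let S : ℝ → Set (E N) := fun C => {x | Dens h ρ C x}
  have hS : Monotone S := fun a b hab x hx => Dens.mono g hab hx
  have hlim : Tendsto (fun n => ρ (S (c n))) atTop (𝓝 (ρ univ)) := by
    have h1 := (tendsto_measure_iUnion_atTop (μ := ρ) hS).comp hc
    have h2 : ρ (⋃ C, S C) = ρ univ := by
      refine le_antisymm (measure_mono (subset_univ _)) (measure_mono_ae ?_)
      filter_upwards [hd] with x ⟨C, hC⟩ _
      exact mem_iUnion.2 ⟨C, hC⟩
    rwa [h2] at h1
  let T : ℕ → Set (E N) := fun n => if 0 < c n then toMeasurable ρ (S (c n)) else ∅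
  have hT : ∀ n, MeasurableSet (T n) := fun n => by
    simp only [T]; split_ifs
    · exact measurableSet_toMeasurable _ _
    · exact MeasurableSet.empty
  choose ν h1 h2 using fun n => tv_restrict μ (T n) (hT n)
  refine ⟨ν, fun n => ?_, fun n => ?_, ?_⟩
  · rw [h1]; exact le_antisymm ((Measure.restrict_le_self _).trans hμ.le) bot_le
  · rw [h1]
    by_cases hn : 0 < c n
    · simp only [T, if_pos hn]
      rw [Measure.restrict_toMeasurable (measure_ne_top _ _)]
      exact frost' g ρ hn _ fun x hx => hx
    · simp only [T, if_neg hn, Measure.restrict_empty]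
      exact bot_le
  · have h3 : ∀ᶠ n in atTop, (ν n - μ).totalVariation univ = ρ univ - ρ (S (c n)) := by
      filter_upwards [hc.eventually_gt_atTop 0] with n hn
      rw [h2, Measure.restrict_apply MeasurableSet.univ, univ_inter]
      simp only [T, if_pos hn]
      rw [measure_compl (measurableSet_toMeasurable _ _) (measure_ne_top _ _), measure_toMeasurable]
    have h4 : Tendsto (fun n => ρ univ - ρ (S (c n))) atTop (𝓝 (ρ univ - ρ univ)) :=
      ENNReal.Tendsto.sub tendsto_const_nhds hlim (Or.inl (measure_ne_top _ _))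
    rw [tsub_self] at h4
    exact (tendsto_congr' h3).2 h4

lemma Gauge.pow_dbl {h : ℝ → ℝ} {D : ℝ} (g : Gauge h D) {r : ℝ} (hr : 0 < r) :
    h (8 * r) ≤ D ^ 3 * h r := by
  have hD := g.one_le
  have h1 := g.dbl r hr
  have h2 := g.dbl (2 * r) (by positivity)
  have h3 := g.dbl (2 * (2 * r)) (by positivity)
  have e : (8 : ℝ) * r = 2 * (2 * (2 * r)) := by ring
  rw [e]
  calc h (2 * (2 * (2 * r))) ≤ D * h (2 * (2 * r)) := h3
    _ ≤ D * (D * h (2 * r)) := by gcongr
    _ ≤ D * (D * (D * h r)) := by gcongr
    _ = _ := by ring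

/-- The points of infinite upper density form a null set (Vitali covering). -/
lemma null_of_top {h : ℝ → ℝ} {D : ℝ} (g : Gauge h D) (ρ : Measure (E N)) [IsFiniteMeasure ρ] :
    HM N h {x | ¬ ∃ C, Dens h ρ C x} = 0 := by
  have hD := g.one_le
  set Z : Set (E N) := {x | ¬ ∃ C, Dens h ρ C x} with hZ
  -- radii
  have hr : ∀ (n : ℕ) (x : Z), ∃ r ∈ Ioo (0 : ℝ) (1 / (n + 1)), (n + 1 : ℝ) * h r < ρ.real (closedBall (x : E N) r) := by
    intro n x
    by_contra hcon
    push Not at hcon
    exact x.2 ⟨n + 1, 1 / (n + 1), by positivity, hcon⟩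
  choose r hr0 hr1 using hr
  have hv := fun n => Vitali.exists_disjoint_subfamily_covering_enlargement_closedBall
    (univ : Set Z) (fun x => (x : E N)) (r n) (1 / (n + 1)) (fun a _ => (hr0 n a).2.le) 4 (by norm_num)
  choose u hu1 hu2 hu3 using hv
  have hcu : ∀ n, (u n).Countable := fun n =>
    (hu2 n).countable_of_nonempty_interior fun a _ =>
      ⟨a, ball_subset_interior_closedBall (mem_ball_self (hr0 n a).1)⟩
  have : ∀ n, Countable (u n) := fun n => (hcu n).to_subtype
  have hdiam : ∀ n (i : u n), ediam (closedBall ((i : Z) : E N) (4 * r n i)) ≤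
      ENNReal.ofReal (8 * r n i) := fun n i => by
    have h1 := (hr0 n i).1
    refine ediam_le_of_forall_dist_le fun a ha b hb => ?_
    have := dist_triangle_right a b ((i : Z) : E N)
    rw [mem_closedBall] at ha hb
    linarith
  have hbound : HM N h Z ≤ liminf (fun n : ℕ => ∑' i : u n,
      ENNReal.ofReal (h (ediam (closedBall ((i : Z) : E N) (4 * r n i))).toReal)) atTop := by
    refine Measure.mkMetric_le_liminf_tsum Z (fun n : ℕ => ENNReal.ofReal (8 * (1 / (n + 1 : ℝ))))
      ?_ (fun n (i : u n) => closedBall ((i : Z) : E N) (4 * r n i)) ?_ ?_ _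
    · rw [← ENNReal.ofReal_zero]
      refine ENNReal.tendsto_ofReal ?_
      have := (tendsto_one_div_add_atTop_nhds_zero_nat (𝕜 := ℝ)).const_mul 8
      simpa using this
    · refine Eventually.of_forall fun n i => (hdiam n i).trans (ENNReal.ofReal_le_ofReal ?_)
      have := (hr0 n i).2
      linarith
    · refine Eventually.of_forall fun n x hx => ?_
      obtain ⟨b, hb, hsub⟩ := hu3 n ⟨x, hx⟩ (mem_univ _)
      refine mem_iUnion.2 ⟨⟨b, hb⟩, hsub ?_⟩
      exact mem_closedBall_self (hr0 n ⟨x, hx⟩).1.le
  refine le_antisymm (hbound.trans ?_) bot_le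
  have hsum : ∀ n : ℕ, ∑' i : u n,
      ENNReal.ofReal (h (ediam (closedBall ((i : Z) : E N) (4 * r n i))).toReal) ≤
      ENNReal.ofReal (D ^ 3 * (1 / (n + 1 : ℝ))) * ρ univ := fun n => by
    have hterm : ∀ i : u n,
        ENNReal.ofReal (h (ediam (closedBall ((i : Z) : E N) (4 * r n i))).toReal) ≤
        ENNReal.ofReal (D ^ 3 * (1 / (n + 1 : ℝ))) * ρ (closedBall ((i : Z) : E N) (r n i)) := by
      intro i
      have h0 := (hr0 n i).1
      have h8 := g.pow_dbl h0
      have hpos := g.pos _ h0
      have hne : ediam (closedBall ((i : Z) : E N) (4 * r n i)) ≠ ⊤ :=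
        ne_top_of_le_ne_top ENNReal.ofReal_ne_top (hdiam n i)
      have hle : (ediam (closedBall ((i : Z) : E N) (4 * r n i))).toReal ≤ 8 * r n i :=
        ENNReal.toReal_le_of_le_ofReal (by positivity) (hdiam n i)
      have e1 : h (ediam (closedBall ((i : Z) : E N) (4 * r n i))).toReal ≤ D ^ 3 * h (r n i) := by
        rcases (ENNReal.toReal_nonneg (a := ediam (closedBall ((i : Z) : E N) (4 * r n i)))).eq_or_lt
          with e | e
        · rw [← e, g.zero]; positivity
        · exact (g.mono _ _ e hle).trans h8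
      have e2 : h (r n i) ≤ 1 / (n + 1 : ℝ) * ρ.real (closedBall ((i : Z) : E N) (r n i)) := by
        rw [one_div, le_inv_mul_iff₀ (by positivity)]
        exact (hr1 n i).le
      calc _ ≤ ENNReal.ofReal (D ^ 3 * (1 / (n + 1 : ℝ)) *
            ρ.real (closedBall ((i : Z) : E N) (r n i))) := by
            refine ENNReal.ofReal_le_ofReal (e1.trans ?_)
            rw [mul_assoc]
            gcongr
        _ = _ := by
            rw [ENNReal.ofReal_mul (by positivity), ofReal_measureReal]
    calc _ ≤ ∑' i : u n, ENNReal.ofReal (D ^ 3 * (1 / (n + 1 : ℝ))) *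
          ρ (closedBall ((i : Z) : E N) (r n i)) := ENNReal.tsum_le_tsum hterm
      _ = ENNReal.ofReal (D ^ 3 * (1 / (n + 1 : ℝ))) *
          ρ (⋃ i ∈ u n, closedBall ((i : Z) : E N) (r n i)) := by
          rw [ENNReal.tsum_mul_left, measure_biUnion (hcu n) (hu2 n)
            fun b _ => measurableSet_closedBall]
      _ ≤ _ := by gcongr; exact subset_univ _
  have hlim : Tendsto (fun n : ℕ => ENNReal.ofReal (D ^ 3 * (1 / (n + 1 : ℝ))) * ρ univ) atTop
      (𝓝 0) := by
    have h1 := ENNReal.tendsto_ofReal
      ((tendsto_one_div_add_atTop_nhds_zero_nat (𝕜 := ℝ)).const_mul (D ^ 3))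
    rw [mul_zero, ENNReal.ofReal_zero] at h1
    have h2 := ENNReal.Tendsto.mul_const h1 (b := ρ univ) (Or.inr (measure_ne_top _ _))
    rwa [zero_mul] at h2
  rw [← hlim.liminf_eq]
  exact liminf_le_liminf (Eventually.of_forall hsum)

/-- A strong limit of measures dominated by multiples of `H^h` is absolutely continuous. -/
lemma ac_of_strongLimit {h : ℝ → ℝ} {Ω : Set (E N)} {μ : SignedMeasure (E N)} {c : ℕ → ℝ}
    (hs : StrongLimit h Ω μ c) : μ.totalVariation ≪ HM N h := by
  obtain ⟨ν, -, h2, h3⟩ := hs
  have key : VectorMeasure.AbsolutelyContinuous μ (HM N h).toENNRealVectorMeasure := by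
    refine VectorMeasure.AbsolutelyContinuous.mk fun A hA h0 => ?_
    rw [Measure.toENNRealVectorMeasure_apply_measurable hA] at h0
    have h4 : ∀ n, ν n A = 0 := fun n => by
      refine SignedMeasure.null_of_totalVariation_zero _ ?_
      have := h2 n A
      rw [Measure.smul_apply, h0, smul_zero] at this
      exact le_antisymm this bot_le
    have h5 : ∀ n, |μ A| ≤ ((ν n - μ).totalVariation univ).toReal := fun n => by
      have e1 : μ A = -((ν n - μ) A) := by rw [sub_apply, h4]; ring
      set s := ν n - μ with hs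
      have e2 : s A = s.toJordanDecomposition.posPart.real A -
          s.toJordanDecomposition.negPart.real A := by
        conv_lhs => rw [← SignedMeasure.toSignedMeasure_toJordanDecomposition s]
        simp only [JordanDecomposition.toSignedMeasure, sub_apply,
          Measure.toSignedMeasure_apply_measurable hA]
      have e3 : (s.totalVariation univ).toReal = s.toJordanDecomposition.posPart.real univ +
          s.toJordanDecomposition.negPart.real univ := by
        rw [SignedMeasure.totalVariation, Measure.add_apply,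
          ENNReal.toReal_add (measure_ne_top _ _) (measure_ne_top _ _)]
        rfl
      have e4 : s.toJordanDecomposition.posPart.real A ≤ s.toJordanDecomposition.posPart.real univ :=
        measureReal_mono (subset_univ _)
      have e5 : s.toJordanDecomposition.negPart.real A ≤ s.toJordanDecomposition.negPart.real univ :=
        measureReal_mono (subset_univ _)
      have e6 : 0 ≤ s.toJordanDecomposition.posPart.real A := measureReal_nonneg
      have e7 : 0 ≤ s.toJordanDecomposition.negPart.real A := measureReal_nonneg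
      rw [e1, e2, e3, abs_le]
      constructor <;> linarith
    have h6 : Tendsto (fun n => ((ν n - μ).totalVariation univ).toReal) atTop (𝓝 0) := by
      have := (ENNReal.tendsto_toReal ENNReal.zero_ne_top).comp h3
      rw [ENNReal.toReal_zero] at this
      exact this
    have h7 : |μ A| ≤ 0 := ge_of_tendsto' h6 h5
    exact abs_eq_zero.1 (le_antisymm h7 (abs_nonneg _))
  have := (SignedMeasure.absolutelyContinuous_ennreal_iff _ _).1 key
  rwa [show (HM N h).toENNRealVectorMeasure.ennrealToMeasure = HM N h from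
    VectorMeasure.equivMeasure.apply_symm_apply (HM N h)] at this

/-- The four equivalent descriptions of the strong closure. -/
theorem closure_iff {h : ℝ → ℝ} {D : ℝ} (g : Gauge h D) (Ω : Set (E N)) (μ : SignedMeasure (E N))
    (hμ : μ.totalVariation Ωᶜ = 0) :
    (μ.totalVariation ≪ HM N h ↔ ∀ᵐ x ∂μ.totalVariation, ∃ C, Dens h μ.totalVariation C x) ∧
    (μ.totalVariation ≪ HM N h ↔ ∃ c, StrongLimit h Ω μ c) ∧
    (μ.totalVariation ≪ HM N h ↔ ∀ c, Tendsto c atTop atTop → StrongLimit h Ω μ c) := by
  have h1 : μ.totalVariation ≪ HM N h →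
      ∀ᵐ x ∂μ.totalVariation, ∃ C, Dens h μ.totalVariation C x := fun ha =>
    ha (null_of_top g μ.totalVariation)
  have h2 : (∀ᵐ x ∂μ.totalVariation, ∃ C, Dens h μ.totalVariation C x) →
      ∀ c, Tendsto c atTop atTop → StrongLimit h Ω μ c := fun hd c hc => approx g Ω μ hμ hd c hc
  have h3 : (∀ c : ℕ → ℝ, Tendsto c atTop atTop → StrongLimit h Ω μ c) →
      ∃ c, StrongLimit h Ω μ c := fun hc => ⟨_, hc _ tendsto_natCast_atTop_atTop⟩
  have h4 : (∃ c, StrongLimit h Ω μ c) → μ.totalVariation ≪ HM N h :=
    fun ⟨c, hc⟩ => ac_of_strongLimit hc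
  exact ⟨⟨h1, fun hd => h4 (h3 (h2 hd))⟩, ⟨fun ha => h3 (h2 (h1 ha)), h4⟩,
    ⟨fun ha => h2 (h1 ha), fun hc => h4 (h3 hc)⟩⟩

end KS6_84.Hld
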