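import Pool.Agent.KS6_84.Hld.Newton

set_option autoImplicit false

namespace KS6_84.Hld

open MeasureTheory Filter Topology Metric Set Pool.Agent.H.MP_19b229_an
open scoped ENNReal NNReal

variable {N : ℕ}

lemma Gam_diff (hN : 2 ≤ N) : ∃ L, 0 ≤ L ∧ ∀ x a y : E N, 2 * dist x a ≤ dist a y →
    0 < dist a y →
    |Gam N (x - y) - Gam N (a - y)| ≤ L * dist x a * (dist a y ^ (N - 1))⁻¹ := by
  refine ⟨|bb N| * 5 * 2 ^ (N - 1), by positivity, fun x a y h1 h2 => ?_⟩
  rw [← G_eq, ← G_eq, ← dist_eq_norm, ← dist_eq_norm]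
  set s := dist a y with hs
  set t := dist x y with ht
  have t1 : |t - s| ≤ dist x a := by
    rw [ht, hs]; exact abs_dist_sub_le x a y
  have t2 : s / 2 ≤ t := by have := (abs_le.1 t1).1; linarith
  have t3 : t ≤ 3 / 2 * s := by have := (abs_le.1 t1).2; linarith
  have hd0 : 0 ≤ dist x a := dist_nonneg
  have mv := Convex.norm_image_sub_le_of_norm_hasDerivWithin_le (𝕜 := ℝ)
    (f := G N) (f' := fun τ => bb N * τ ^ (-(N : ℝ) / 2))
    (C := |bb N| * ((s / 2) ^ N)⁻¹) (s := Ici ((s / 2) ^ 2)) (x := s ^ 2) (y := t ^ 2)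
    (fun τ hτ => (G_der (lt_of_lt_of_le (by positivity) hτ)).hasDerivWithinAt)
    (fun τ hτ => by
      have hτ' : (s / 2) ^ 2 ≤ τ := hτ
      have h0 : 0 < (s / 2) ^ 2 := by positivity
      have hτ0 : 0 < τ := h0.trans_le hτ'
      rw [norm_mul, Real.norm_eq_abs, Real.norm_of_nonneg (by positivity)]
      refine mul_le_mul_of_nonneg_left ?_ (abs_nonneg _)
      refine (Real.rpow_le_rpow_of_nonpos h0 hτ' (by
        have : (0 : ℝ) ≤ N := by positivity
        linarith)).trans_eq ?_
      rw [← Real.rpow_natCast (s / 2) 2, ← Real.rpow_mul (by positivity),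
        ← Real.rpow_natCast (s / 2) N, ← Real.rpow_neg (by positivity)]
      congr 1
      push_cast
      ring)
    (convex_Ici _) (by
      rw [mem_Ici]; gcongr; linarith) (by
      rw [mem_Ici]; gcongr)
  rw [Real.norm_eq_abs, Real.norm_eq_abs] at mv
  refine mv.trans ?_
  have e1 : |t ^ 2 - s ^ 2| ≤ dist x a * (5 * (s / 2)) := by
    rw [show t ^ 2 - s ^ 2 = (t - s) * (t + s) by ring, abs_mul, abs_of_nonneg (a := t + s) (by
      linarith)]
    gcongr
    linarith
  have e2 : ((s / 2) ^ N)⁻¹ = 2 ^ (N - 1) * (s ^ (N - 1))⁻¹ * (s / 2)⁻¹ := by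
    obtain ⟨n, rfl⟩ : ∃ n, N = n + 1 := ⟨N - 1, by omega⟩
    rw [Nat.add_sub_cancel, pow_succ, div_pow]
    field_simp
  calc |bb N| * ((s / 2) ^ N)⁻¹ * |t ^ 2 - s ^ 2|
      ≤ |bb N| * ((s / 2) ^ N)⁻¹ * (dist x a * (5 * (s / 2))) := by gcongr
    _ = _ := by
      rw [e2]; field_simp

lemma near_int (hN : 2 ≤ N) {r : ℝ} (hr : 0 < r) {c : ℝ} (hc : ∀ v : E N, v ≠ 0 →
    Gam N (r • v) = r ^ (2 - N : ℝ) * Gam N v + c) (a y : E N) (hy : y ∈ closedBall a (2 * r)) :
    ∫ x in closedBall a r, |Gam N (x - y) - c| ≤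
      r ^ 2 * ∫ z in closedBall (0 : E N) 3, |Gam N z| := by
  have : Nontrivial (E N) := Module.nontrivial_of_finrank_pos (R := ℝ) (by simp; omega)
  set F : E N → ℝ := (closedBall (0 : E N) (3 * r)).indicator fun z => |Gam N z - c| with hF
  have i0 : IntegrableOn (fun z => |Gam N z - c|) (closedBall (0 : E N) (3 * r)) :=
    (((Gam_li hN).integrableOn_isCompact (isCompact_closedBall _ _)).sub
      (integrableOn_const (measure_closedBall_lt_top.ne))).abs
  have iF : Integrable F := i0.integrable_indicator measurableSet_closedBall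
  have e1 : ∫ x in closedBall a r, |Gam N (x - y) - c| ≤ ∫ x, F (x - y) := by
    rw [← integral_indicator measurableSet_closedBall]
    refine integral_mono_of_nonneg (Eventually.of_forall fun x =>
      indicator_nonneg (fun _ _ => abs_nonneg _) _) (iF.comp_sub_right y)
      (Eventually.of_forall fun x => ?_)
    by_cases hx : x ∈ closedBall a r
    · have : x - y ∈ closedBall (0 : E N) (3 * r) := by
        rw [mem_closedBall_zero_iff, ← dist_eq_norm]
        rw [mem_closedBall] at hx hy
        linarith [dist_triangle_right x y a]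
      simp only [indicator_of_mem hx, hF, indicator_of_mem this]
      exact le_refl _
    · simp only [indicator_of_notMem hx]
      exact indicator_nonneg (fun _ _ => abs_nonneg _) _
  refine e1.trans ?_
  rw [integral_sub_right_eq_self F y]
  have e2 := Measure.integral_comp_smul (volume : Measure (E N)) F r
  have e3 : ∫ v, F (r • v) = r ^ (2 - N : ℝ) * ∫ z in closedBall (0 : E N) 3, |Gam N z| := by
    rw [← integral_const_mul, ← integral_indicator measurableSet_closedBall]
    refine integral_congr_ae ((Measure.ae_ne volume (0 : E N)).mono fun v hv => ?_)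
    by_cases k : v ∈ closedBall (0 : E N) 3
    · have : r • v ∈ closedBall (0 : E N) (3 * r) := by
        rw [mem_closedBall_zero_iff] at k ⊢
        rw [norm_smul, Real.norm_of_nonneg hr.le]; nlinarith
      simp only [hF, indicator_of_mem k, indicator_of_mem this]
      rw [hc v hv, add_sub_cancel_right, abs_mul, abs_of_pos (Real.rpow_pos_of_pos hr _)]
    · have : r • v ∉ closedBall (0 : E N) (3 * r) := by
        rw [mem_closedBall_zero_iff] at k ⊢
        rw [norm_smul, Real.norm_of_nonneg hr.le]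
        intro h
        apply k
        nlinarith
      simp only [hF, indicator_of_notMem k, indicator_of_notMem this]
  rw [e3] at e2
  simp only [finrank_euclideanSpace, Fintype.card_fin, smul_eq_mul] at e2
  rw [abs_of_pos (by positivity)] at e2
  have e9 : r ^ (2 - N : ℝ) = r ^ 2 * (r ^ N)⁻¹ := by
    rw [Real.rpow_sub hr, Real.rpow_natCast, div_eq_mul_inv]
    norm_num
  rw [e9] at e2
  have hrN : 0 < r ^ N := by positivity
  have e10 : (r ^ N)⁻¹ * (r ^ 2 * ∫ z in closedBall (0 : E N) 3, |Gam N z|) =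
      (r ^ N)⁻¹ * ∫ x, F x := by rw [← e2]; ring
  exact (mul_left_cancel₀ (by positivity) e10).ge

lemma Gauge.pow_le {h : ℝ → ℝ} {D : ℝ} (g : Gauge h D) {r : ℝ} (hr : 0 < r) (k : ℕ) :
    h (2 ^ k * r) ≤ D ^ k * h r := by
  have hD := g.one_le
  induction k with
  | zero => simp
  | succ k ih =>
    have := g.dbl (2 ^ k * r) (by positivity)
    calc h (2 ^ (k + 1) * r) = h (2 * (2 ^ k * r)) := by rw [pow_succ]; ring_nf
      _ ≤ D * h (2 ^ k * r) := this
      _ ≤ D * (D ^ k * h r) := by gcongr
      _ = _ := by rw [pow_succ]; ring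

open Classical in
/-- the comparison kernel -/
noncomputable def kk (a : E N) (r c : ℝ) (y : E N) : ℝ :=
  if y ∈ closedBall a (2 * r) then c else Gam N (a - y)

lemma kk_meas (a : E N) (r c : ℝ) : Measurable (kk a r c) := by
  classical
  unfold kk
  exact Measurable.ite measurableSet_closedBall measurable_const (Gam_meas.comp (by fun_prop))

lemma phi_bound (hN : 2 ≤ N) : ∃ G₀ V, 0 ≤ G₀ ∧ 0 ≤ V ∧ ∀ (a : E N) (r c : ℝ), 0 < r →
    (∀ v : E N, v ≠ 0 → Gam N (r • v) = r ^ (2 - N : ℝ) * Gam N v + c) → ∀ y : E N,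
    ∫⁻ x in closedBall a r, ‖Gam N (x - y) - kk a r c y‖ₑ ≤
      (closedBall a (2 * r)).indicator (fun _ => ENNReal.ofReal (r ^ 2 * G₀)) y +
      ∑' k : ℕ, (closedBall a (2 ^ (k + 2) * r)).indicator
        (fun _ => ENNReal.ofReal (V * r ^ 2 * ((2 ^ (N - 1)) ^ (k + 1))⁻¹)) y := by
  obtain ⟨L, hL, hdiff⟩ := Gam_diff (N := N) hN
  set G₀ := ∫ z in closedBall (0 : E N) 3, |Gam N z| with hG₀
  set W := (volume (ball (0 : E N) 1)).toReal with hW
  refine ⟨G₀, L * W, integral_nonneg fun _ => abs_nonneg _, by positivity,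
    fun a r c hr hc y => ?_⟩
  by_cases hy : y ∈ closedBall a (2 * r)
  · refine le_trans ?_ le_self_add
    rw [indicator_of_mem hy]
    have hint : IntegrableOn (fun x => Gam N (x - y) - c) (closedBall a r) :=
      ((Gam_sh hN y).integrableOn_isCompact (isCompact_closedBall _ _)).sub
        (integrableOn_const (measure_closedBall_lt_top.ne))
    have e : ∫⁻ x in closedBall a r, ‖Gam N (x - y) - kk a r c y‖ₑ =
        ∫⁻ x in closedBall a r, ‖Gam N (x - y) - c‖ₑ := by
      simp only [kk, if_pos hy]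
    rw [e, ← ofReal_integral_norm_eq_lintegral_enorm hint]
    exact ENNReal.ofReal_le_ofReal (near_int hN hr hc a y hy)
  · refine le_trans ?_ le_add_self
    rw [mem_closedBall, not_le, dist_comm] at hy
    have hy0 : 0 < dist a y := by linarith
    obtain ⟨k, hk1, hk2⟩ := exists_nat_pow_near (x := dist a y / (2 * r)) (y := 2)
      ((one_le_div (by positivity)).2 hy.le) (by norm_num)
    rw [le_div_iff₀ (by positivity)] at hk1
    rw [div_lt_iff₀ (by positivity)] at hk2
    have hmem : y ∈ closedBall a (2 ^ (k + 2) * r) := by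
      rw [mem_closedBall, dist_comm]
      refine hk2.le.trans_eq ?_
      rw [pow_succ 2 (k + 1)]; ring
    refine le_trans ?_ (ENNReal.le_tsum k)
    rw [indicator_of_mem hmem]
    have hb : ∀ x ∈ closedBall a r, ‖Gam N (x - y) - kk a r c y‖ₑ ≤
        ENNReal.ofReal (L * r * ((2 ^ k * (2 * r)) ^ (N - 1))⁻¹) := by
      intro x hx
      have hnk : y ∉ closedBall a (2 * r) := by
        rw [mem_closedBall, dist_comm, not_le]; exact hy
      rw [mem_closedBall] at hx
      simp only [kk, if_neg hnk]
      rw [← ofReal_norm, Real.norm_eq_abs]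
      refine ENNReal.ofReal_le_ofReal ((hdiff x a y (by linarith) hy0).trans ?_)
      gcongr
    calc ∫⁻ x in closedBall a r, ‖Gam N (x - y) - kk a r c y‖ₑ
        ≤ ∫⁻ x in closedBall a r, ENNReal.ofReal (L * r * ((2 ^ k * (2 * r)) ^ (N - 1))⁻¹) :=
          setLIntegral_mono measurable_const hb
      _ = ENNReal.ofReal (L * r * ((2 ^ k * (2 * r)) ^ (N - 1))⁻¹) *
          volume (closedBall a r) := by rw [setLIntegral_const]
      _ = ENNReal.ofReal (L * r * ((2 ^ k * (2 * r)) ^ (N - 1))⁻¹ * (r ^ N * W)) := by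
          have hvol : volume (closedBall a r) = ENNReal.ofReal (r ^ N * W) := by
            rw [Measure.addHaar_closedBall _ _ hr.le, finrank_euclideanSpace, Fintype.card_fin,
              ENNReal.ofReal_mul (by positivity), hW, ENNReal.ofReal_toReal measure_ball_lt_top.ne]
          rw [hvol, ← ENNReal.ofReal_mul (by positivity)]
      _ = _ := by
          congr 1
          obtain ⟨n, rfl⟩ : ∃ n, N = n + 1 := ⟨N - 1, by omega⟩
          rw [Nat.add_sub_cancel, mul_pow, mul_pow, ← pow_mul, ← pow_mul]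
          field_simp
          ring

lemma osc_bound (hN : 2 ≤ N) {h : ℝ → ℝ} {D : ℝ} (g : Gauge h D) (hD2 : D < 2 ^ (N - 1))
    {C : ℝ} (hC : 0 ≤ C) : ∃ M, 0 ≤ M ∧
    ∀ (ν : Measure (E N)) [IsFiniteMeasure ν] (R : ℝ), (∀ᵐ y ∂ν, ‖y‖ ≤ R) → ∀ a : E N,
      (∀ s, 0 < s → ν (closedBall a s) ≤ ENNReal.ofReal (C * h s)) → ∀ r, 0 < r →
        ∃ c, ∫ x in closedBall a r, |(∫ y, Gam N (x - y) ∂ν) - c| ≤ M * r ^ 2 * h r := by
  have hD := g.one_le
  obtain ⟨G₀, V, hG, hV, hphi⟩ := phi_bound (N := N) hN
  set P : ℝ := 2 ^ (N - 1) with hP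
  have hP0 : 0 < P := by positivity
  have hθ : D / P < 1 := (div_lt_one hP0).2 hD2
  have hθ1 : 0 < 1 - D / P := by linarith
  refine ⟨G₀ * C * D + V * C * D ^ 2 * P⁻¹ * (1 - D / P)⁻¹, by positivity,
    fun ν _ R hR a hν r hr => ?_⟩
  have hhr := g.pos r hr
  obtain ⟨c, hc⟩ := Gam_smul (N := N) hr
  have hF : Measurable fun p : E N × E N => Gam N (p.1 - p.2) - kk a r c p.2 :=
    (Gam_meas.comp (by fun_prop)).sub ((kk_meas a r c).comp measurable_snd)
  -- the double integral
  have hdouble : ∫⁻ x in closedBall a r, ∫⁻ y, ‖Gam N (x - y) - kk a r c y‖ₑ ∂ν ≤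
      ENNReal.ofReal ((G₀ * C * D + V * C * D ^ 2 * P⁻¹ * (1 - D / P)⁻¹) * r ^ 2 * h r) := by
    rw [lintegral_lintegral_swap hF.enorm.aemeasurable]
    calc ∫⁻ y, (∫⁻ x in closedBall a r, ‖Gam N (x - y) - kk a r c y‖ₑ) ∂ν
        ≤ ∫⁻ y, ((closedBall a (2 * r)).indicator (fun _ => ENNReal.ofReal (r ^ 2 * G₀)) y +
          ∑' k : ℕ, (closedBall a (2 ^ (k + 2) * r)).indicator
            (fun _ => ENNReal.ofReal (V * r ^ 2 * (P ^ (k + 1))⁻¹)) y) ∂ν :=
          lintegral_mono fun y => hphi a r c hr hc y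
      _ = ENNReal.ofReal (r ^ 2 * G₀) * ν (closedBall a (2 * r)) +
          ∑' k : ℕ, ENNReal.ofReal (V * r ^ 2 * (P ^ (k + 1))⁻¹) *
            ν (closedBall a (2 ^ (k + 2) * r)) := by
          rw [lintegral_add_left (measurable_const.indicator measurableSet_closedBall),
            lintegral_indicator_const measurableSet_closedBall,
            lintegral_tsum fun k =>
              (measurable_const.indicator measurableSet_closedBall).aemeasurable]
          congr 1
          refine tsum_congr fun k => ?_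
          rw [lintegral_indicator_const measurableSet_closedBall]
      _ ≤ ENNReal.ofReal (r ^ 2 * G₀ * (C * (D * h r))) +
          ∑' k : ℕ, ENNReal.ofReal (V * C * D ^ 2 * P⁻¹ * r ^ 2 * h r * (D / P) ^ k) := by
          refine add_le_add ?_ (ENNReal.tsum_le_tsum fun k => ?_)
          · rw [ENNReal.ofReal_mul (p := r ^ 2 * G₀) (by positivity)]
            refine mul_le_mul_right ((hν (2 * r) (by positivity)).trans
              (ENNReal.ofReal_le_ofReal ?_)) _
            exact mul_le_mul_of_nonneg_left (g.dbl r hr) hC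
          · calc _ ≤ ENNReal.ofReal (V * r ^ 2 * (P ^ (k + 1))⁻¹) *
                  ENNReal.ofReal (C * (D ^ (k + 2) * h r)) := by
                    refine mul_le_mul_right ((hν (2 ^ (k + 2) * r) (by positivity)).trans
                      (ENNReal.ofReal_le_ofReal ?_)) _
                    exact mul_le_mul_of_nonneg_left (g.pow_le hr _) hC
              _ = _ := by
                    rw [← ENNReal.ofReal_mul (by positivity)]
                    congr 1
                    rw [div_pow, pow_succ P k, pow_add D k 2]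
                    field_simp
      _ = ENNReal.ofReal (r ^ 2 * G₀ * (C * (D * h r))) +
          ENNReal.ofReal (V * C * D ^ 2 * P⁻¹ * r ^ 2 * h r * (1 - D / P)⁻¹) := by
          congr 1
          rw [← ENNReal.ofReal_tsum_of_nonneg (fun k => by positivity)
            ((summable_geometric_of_lt_one (by positivity) hθ).mul_left _), tsum_mul_left,
            tsum_geometric_of_lt_one (by positivity) hθ]
      _ = ENNReal.ofReal ((G₀ * C * D + V * C * D ^ 2 * P⁻¹ * (1 - D / P)⁻¹) * r ^ 2 * h r) := by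
          rw [← ENNReal.ofReal_add (by positivity) (by positivity)]
          congr 1
          ring
  have hfin : ∀ᵐ x ∂volume.restrict (closedBall a r),
      ∫⁻ y, ‖Gam N (x - y) - kk a r c y‖ₑ ∂ν < ⊤ :=
    ae_lt_top' (hF.enorm.lintegral_prod_right').aemeasurable
      (ne_top_of_le_ne_top ENNReal.ofReal_ne_top hdouble)
  have hG1 : ∀ᵐ x ∂volume.restrict (closedBall a r), Integrable (fun y => Gam N (x - y)) ν :=
    (prod_int hN ν hR a r).prod_right_ae
  have hd1 : ∀ᵐ x ∂volume.restrict (closedBall a r),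
      Integrable (fun y => Gam N (x - y) - kk a r c y) ν := by
    filter_upwards [hfin] with x hx
    exact ⟨((Gam_meas.comp (by fun_prop)).sub (kk_meas a r c)).aestronglyMeasurable, hx⟩
  have hne : (volume.restrict (closedBall a r) : Measure (E N)) ≠ 0 := by
    rw [Ne, Measure.restrict_eq_zero]
    exact (measure_closedBall_pos _ _ hr).ne'
  have hneb : (ae (volume.restrict (closedBall a r) : Measure (E N))).NeBot := ae_neBot.2 hne
  obtain ⟨x₀, hx1, hx2⟩ := (hG1.and hd1).exists
  have hk : Integrable (kk a r c) ν := by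
    have := hx1.sub hx2
    refine this.congr (Eventually.of_forall fun y => ?_)
    simp
  refine ⟨∫ y, kk a r c y ∂ν, ?_⟩
  have hu := pot_int hN ν hR a r
  have hint : IntegrableOn (fun x => (∫ y, Gam N (x - y) ∂ν) - ∫ y, kk a r c y ∂ν)
      (closedBall a r) := hu.sub (integrableOn_const (measure_closedBall_lt_top.ne))
  rw [← ENNReal.ofReal_le_ofReal_iff (by positivity)]
  refine le_trans ?_ hdouble
  have e1 := ofReal_integral_norm_eq_lintegral_enorm hint
  simp only [Real.norm_eq_abs] at e1
  rw [e1]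
  refine lintegral_mono_ae ?_
  filter_upwards [hG1] with x hx
  rw [← integral_sub hx hk]
  exact enorm_integral_le_lintegral_enorm _

/-- At a point of finite upper density, the potential has small mean oscillation. -/
lemma osc_of_dens (hN : 2 ≤ N) {h : ℝ → ℝ} {D : ℝ} (g : Gauge h D) (hD2 : D < 2 ^ (N - 1))
    (c₀ : ℝ) (μ : SignedMeasure (E N)) {R : ℝ} (hR : ∀ᵐ y ∂μ.totalVariation, ‖y‖ ≤ R) (a : E N)
    (hd : ∃ C, Dens h μ.totalVariation C a) : ∃ M, Osc h 2 (pot c₀ μ) M a := by
  obtain ⟨C, η, hη, hC⟩ := hd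
  have hhη := g.pos η hη
  set C' := |C| + μ.totalVariation.real univ / h η with hC'
  have hC0 : 0 ≤ C' := by positivity
  have hall : ∀ s, 0 < s → μ.totalVariation (closedBall a s) ≤ ENNReal.ofReal (C' * h s) := by
    intro s hs
    have hhs := g.pos s hs
    rw [← ofReal_measureReal]
    refine ENNReal.ofReal_le_ofReal ?_
    have k1 : 0 ≤ μ.totalVariation.real univ / h η := by positivity
    rcases lt_or_ge s η with k | k
    · refine (hC s ⟨hs, k⟩).trans ?_
      gcongr
      rw [hC']; linarith [le_abs_self C]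
    · refine (measureReal_mono (subset_univ _)).trans ?_
      calc μ.totalVariation.real univ = μ.totalVariation.real univ / h η * h η := by field_simp
        _ ≤ μ.totalVariation.real univ / h η * h s := by
          gcongr; exact g.mono η s hη k
        _ ≤ C' * h s := by
          gcongr
          rw [hC']; linarith [abs_nonneg C]
  obtain ⟨M, hM0, hM⟩ := osc_bound hN g hD2 hC0
  have hp : ∀ s, 0 < s → μ.toJordanDecomposition.posPart (closedBall a s) ≤
      ENNReal.ofReal (C' * h s) := fun s hs => le_trans (by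
        rw [SignedMeasure.totalVariation, Measure.add_apply]; exact le_self_add) (hall s hs)
  have hq : ∀ s, 0 < s → μ.toJordanDecomposition.negPart (closedBall a s) ≤
      ENNReal.ofReal (C' * h s) := fun s hs => le_trans (by
        rw [SignedMeasure.totalVariation, Measure.add_apply]; exact le_add_self) (hall s hs)
  rw [SignedMeasure.totalVariation, ae_add_measure_iff] at hR
  refine ⟨|c₀| * (M + M), 1, one_pos, fun r hr => ?_⟩
  obtain ⟨c1, h1⟩ := hM _ R hR.1 a hp r hr.1
  obtain ⟨c2, h2⟩ := hM _ R hR.2 a hq r hr.1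
  refine ⟨c₀ * (c1 - c2), ?_⟩
  have i1 : IntegrableOn (fun x => |(∫ y, Gam N (x - y) ∂μ.toJordanDecomposition.posPart) - c1|)
      (closedBall a r) := ((pot_int hN _ hR.1 a r).sub
        (integrableOn_const (measure_closedBall_lt_top.ne))).abs
  have i2 : IntegrableOn (fun x => |(∫ y, Gam N (x - y) ∂μ.toJordanDecomposition.negPart) - c2|)
      (closedBall a r) := ((pot_int hN _ hR.2 a r).sub
        (integrableOn_const (measure_closedBall_lt_top.ne))).abs
  calc ∫ x in closedBall a r, |pot c₀ μ x - c₀ * (c1 - c2)|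
      ≤ ∫ x in closedBall a r,
        (|c₀| * |(∫ y, Gam N (x - y) ∂μ.toJordanDecomposition.posPart) - c1| +
          |c₀| * |(∫ y, Gam N (x - y) ∂μ.toJordanDecomposition.negPart) - c2|) := by
        refine integral_mono_of_nonneg (Eventually.of_forall fun x => abs_nonneg _)
          ((i1.const_mul _).add (i2.const_mul _)) (Eventually.of_forall fun x => ?_)
        simp only [pot, integral_const_mul]
        rw [← abs_mul, ← abs_mul]
        refine le_trans (le_of_eq ?_) (abs_sub _ _)
        congr 1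
        ring
    _ = |c₀| * (∫ x in closedBall a r,
          |(∫ y, Gam N (x - y) ∂μ.toJordanDecomposition.posPart) - c1|) +
        |c₀| * (∫ x in closedBall a r,
          |(∫ y, Gam N (x - y) ∂μ.toJordanDecomposition.negPart) - c2|) := by
        rw [integral_add (i1.const_mul _) (i2.const_mul _), integral_const_mul, integral_const_mul]
    _ ≤ |c₀| * (M * r ^ 2 * h r) + |c₀| * (M * r ^ 2 * h r) := by gcongr
    _ = _ := by ring

end KS6_84.Hld
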