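import Pool.Graph.R_pool_sql_team_39128cda.H.MP_19b229_an.B

set_option autoImplicit false

namespace KS6_84.Hld

open MeasureTheory Filter Topology Metric Set Pool.Agent.H.MP_19b229_an
open scoped ENNReal NNReal

variable {N : ℕ}

/-- `h` is a gauge with doubling constant `D`: `h 0 = 0`, `h` is positive and nondecreasing on
`(0, ∞)`, tends to `0` at `0`, and `h (2 r) ≤ D h r`. -/
structure Gauge (h : ℝ → ℝ) (D : ℝ) : Prop where
  zero : h 0 = 0
  pos : ∀ r, 0 < r → 0 < h r
  mono : ∀ r s, 0 < r → r ≤ s → h r ≤ h s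
  lim : Tendsto h (𝓝[>] 0) (𝓝 0)
  dbl : ∀ r, 0 < r → h (2 * r) ≤ D * h r

/-- The Hausdorff measure with gauge `h` (only the values of `h` near `0` matter). -/
noncomputable def HM (N : ℕ) (h : ℝ → ℝ) : Measure (E N) :=
  Measure.mkMetric fun d => ENNReal.ofReal (h d.toReal)

/-- `ρ (B(x,r)) ≤ C h(r)` for all small `r`. -/
def Dens (h : ℝ → ℝ) (ρ : Measure (E N)) (C : ℝ) (x : E N) : Prop :=
  ∃ η > 0, ∀ r ∈ Ioo 0 η, ρ.real (closedBall x r) ≤ C * h r

lemma Gauge.one_le {h : ℝ → ℝ} {D : ℝ} (g : Gauge h D) : 1 ≤ D := by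
  have h1 := g.mono 1 (2 * 1) one_pos (by norm_num)
  have h2 := g.dbl 1 one_pos
  have h3 := g.pos 1 one_pos
  nlinarith

lemma iter' {h : ℝ → ℝ} {D : ℝ} (g : Gauge h D) {a : ℝ → ℝ} {C M δ : ℝ} (hδ : 0 < δ)
    (hC : 0 ≤ C) (hM : ∀ r, a r ≤ M)
    (hM0 : 0 ≤ M) (hs : ∀ r ∈ Ioo 0 δ, a r ≤ C * h r + (2 * D)⁻¹ * a (2 * r)) :
    ∃ η > 0, ∀ r ∈ Ioo 0 η, a r ≤ (2 * C + 1) * h r := by
  have hD := g.one_le
  have step : ∀ B, 0 ≤ B → ∀ r, r ∈ Ioo 0 δ → a (2 * r) ≤ B * h (2 * r) →
      a r ≤ (C + B / 2) * h r :=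
    fun B hB0 r hr hB => by
      refine (hs r hr).trans ?_
      have h1 : (2 * D)⁻¹ * a (2 * r) ≤ B / 2 * h r := by
        rw [inv_mul_le_iff₀ (by positivity)]
        have := mul_le_mul_of_nonneg_left (g.dbl r hr.1) hB0
        nlinarith
      linarith
  have hhδ := g.pos δ hδ
  set B := 2 * C + M / h δ with hB
  have hB0 : 0 ≤ B := by positivity
  have h1 : ∀ k : ℕ, ∀ r, 0 < r → δ ≤ 2 ^ k * r → a r ≤ B * h r := fun k => by
    have base : ∀ r, δ ≤ r → a r ≤ B * h r := fun r hr => by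
      have h0 : M ≤ M / h δ * h r := by
        rw [div_mul_eq_mul_div, le_div_iff₀ hhδ]
        exact mul_le_mul_of_nonneg_left (g.mono δ r hδ hr) hM0
      have h2 : 0 ≤ 2 * C * h r := by have := g.pos r (hδ.trans_le hr); positivity
      rw [hB, add_mul]; linarith [hM r]
    induction k with
    | zero => exact fun r _ hr => base r (by simpa using hr)
    | succ k ih =>
      intro r hr hk
      rcases le_or_gt δ r with e | e
      · exact base r e
      · refine (step B hB0 r ⟨hr, e⟩ (ih _ (by linarith) (by rw [pow_succ] at hk; linarith))).trans ?_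
        have : 0 ≤ M / h δ := by positivity
        have := g.pos r hr
        gcongr; linarith
  have h2 : ∀ k : ℕ, ∃ η > 0, ∀ r ∈ Ioo 0 η, a r ≤ (2 * C + B / 2 ^ k) * h r := fun k => by
    induction k with
    | zero =>
      refine ⟨1, one_pos, fun r hr => ?_⟩
      obtain ⟨k, hk⟩ := pow_unbounded_of_one_lt (δ / r) (one_lt_two (α := ℝ))
      refine (h1 k r hr.1 ((div_lt_iff₀ hr.1).1 hk).le).trans ?_
      have := g.pos r hr.1
      gcongr; simp; linarith
    | succ k ih =>
      obtain ⟨η, h0, ih⟩ := ih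
      refine ⟨min δ (η / 2), by positivity, fun r hr => ?_⟩
      have := lt_min_iff.1 hr.2
      refine (step _ (by positivity) r ⟨hr.1, this.1⟩
        (ih _ ⟨by linarith [hr.1], by linarith⟩)).trans_eq ?_
      rw [pow_succ]; ring
  obtain ⟨k, hk⟩ := pow_unbounded_of_one_lt B (one_lt_two (α := ℝ))
  obtain ⟨η, h0, h3⟩ := h2 k
  refine ⟨η, h0, fun r hr => (h3 r hr).trans ?_⟩
  have := g.pos r hr.1
  gcongr
  exact (div_le_one (by positivity)).2 hk.le

/-- Mass distribution principle, for arbitrary (not necessarily measurable) sets. -/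
lemma frost' {h : ℝ → ℝ} {D : ℝ} (g : Gauge h D) (p : Measure (E N)) {C : ℝ} (hC : 0 < C)
    [IsFiniteMeasure p] (S₀ : Set (E N)) (hS : ∀ x ∈ S₀, Dens h p C x) :
    p.restrict S₀ ≤ ENNReal.ofReal C • HM N h := by
  let A : ℕ → Set (E N) := fun n => {x | x ∈ S₀ ∧ ∀ r ∈ Icc 0 (1 / (n + 1 : ℝ)),
    p.real (closedBall x r) ≤ C * h r}
  have hA : Monotone A := fun n m hnm x hx => ⟨hx.1, fun r hr => hx.2 r ⟨hr.1, hr.2.trans (by gcongr)⟩⟩
  have h1 : ∀ x ∈ S₀, x ∈ ⋃ n, A n := fun x hxS => by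
    obtain ⟨η, h0, hx⟩ := hS x hxS
    obtain ⟨n, hn⟩ := exists_nat_one_div_lt h0
    refine mem_iUnion.2 ⟨n, hxS, fun r hr => ?_⟩
    rcases hr.1.eq_or_lt with rfl | e
    · have t : Tendsto (fun r : ℝ => C * h r) (𝓝[>] 0) (𝓝 (C * 0)) := g.lim.const_mul C
      rw [g.zero]
      refine ge_of_tendsto t ?_
      filter_upwards [Ioo_mem_nhdsGT h0] with r hr
      exact (measureReal_mono (closedBall_subset_closedBall hr.1.le)).trans (hx r hr)
    · exact hx r ⟨e, hr.2.trans_lt hn⟩
  have hC' : ENNReal.ofReal C ≠ 0 := by simpa using hC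
  have h2 : ∀ n, (ENNReal.ofReal C)⁻¹ • p.restrict (A n) ≤ HM N h := fun n => by
    refine Measure.le_mkMetric _ _ (ENNReal.ofReal (1 / (n + 1 : ℝ))) (by
      simp; positivity) fun S hS => ?_
    rw [Measure.smul_apply, smul_eq_mul]
    rcases (closure S ∩ A n).eq_empty_or_nonempty with e | ⟨x, hx, hx'⟩
    · have : p.restrict (A n) S = 0 := measure_mono_null subset_closure (by
        rw [Measure.restrict_apply isClosed_closure.measurableSet, e, measure_empty])
      simp [this]
    have ht : ediam S ≠ ⊤ := ne_top_of_le_ne_top ENNReal.ofReal_ne_top hS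
    have hd : diam S ≤ 1 / (n + 1 : ℝ) := ENNReal.toReal_le_of_le_ofReal (by positivity) hS
    have hsub : S ⊆ closedBall x (diam S) := fun y hy => by
      rw [← diam_closure]
      exact dist_le_diam_of_mem' (by rwa [ediam_closure]) (subset_closure hy) hx
    rw [ENNReal.inv_mul_le_iff hC' ENNReal.ofReal_ne_top]
    calc p.restrict (A n) S ≤ p (closedBall x (diam S)) :=
          (Measure.restrict_le_self S).trans (measure_mono hsub)
      _ ≤ ENNReal.ofReal (C * h (diam S)) := by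
          rw [← ofReal_measureReal]
          exact ENNReal.ofReal_le_ofReal (hx'.2 _ ⟨diam_nonneg, hd⟩)
      _ = _ := by
          rw [ENNReal.ofReal_mul hC.le]; rfl
  refine Measure.le_iff.2 fun S hS => ?_
  calc p.restrict S₀ S = p (S ∩ S₀) := Measure.restrict_apply hS
    _ ≤ p (⋃ n, S ∩ A n) := measure_mono fun x hx => by
        obtain ⟨n, hn⟩ := mem_iUnion.1 (h1 x hx.2)
        exact mem_iUnion.2 ⟨n, hx.1, hn⟩
    _ = ⨆ n, p (S ∩ A n) := Monotone.measure_iUnion fun n m k => inter_subset_inter_right _ (hA k)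
    _ ≤ _ := iSup_le fun n => by
        have := h2 n S
        rwa [Measure.smul_apply, smul_eq_mul, ENNReal.inv_mul_le_iff hC' ENNReal.ofReal_ne_top,
          Measure.restrict_apply hS] at this

/-- The local density estimate at the points of a signed measure `p - q`. -/
lemma dens' {h : ℝ → ℝ} {D : ℝ} (g : Gauge h D) (p q : Measure (E N)) [IsFiniteMeasure p]
    [IsFiniteMeasure q] (hpq : q ⟂ₘ p) :
    ∀ᵐ x ∂p, ∀ C, 0 ≤ C → (∃ δ > 0, ∀ r ∈ Ioo 0 δ,
      ∫ y, ph N (r⁻¹ • (y - x)) ∂p - ∫ y, ph N (r⁻¹ • (y - x)) ∂q ≤ C * h r) →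
      Dens h (p + q) (2 * (2 * C + 1)) x := by
  have hD := g.one_le
  filter_upwards [Besicovitch.ae_tendsto_rnDeriv q p, hpq.rnDeriv_ae_eq_zero]
    with x h1 h2 C hC ⟨δ, h0, hx⟩
  rw [h2, Pi.zero_apply] at h1
  have h3 := h1.eventually (gt_mem_nhds (show (0 : ℝ≥0∞) < ENNReal.ofReal (2 * D)⁻¹ by
    simp; positivity))
  obtain ⟨δ', h4, h5⟩ := mem_nhdsGT_iff_exists_Ioo_subset.1 h3
  have h4' : 0 < δ' := h4
  have k3 : ∀ s ∈ Ioo 0 δ', q.real (closedBall x s) ≤ (2 * D)⁻¹ * p.real (closedBall x s) := by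
    intro s hs
    have k4 : q (closedBall x s) / p (closedBall x s) < ENNReal.ofReal (2 * D)⁻¹ :=
      h5 ⟨hs.1, hs.2⟩
    have k5 := (ENNReal.div_le_iff_le_mul (Or.inr ENNReal.ofReal_ne_top)
      (Or.inl (measure_ne_top _ _))).1 k4.le
    have k6 := ENNReal.toReal_mono (ENNReal.mul_ne_top ENNReal.ofReal_ne_top
      (measure_ne_top _ _)) k5
    rwa [ENNReal.toReal_mul, ENNReal.toReal_ofReal (by positivity)] at k6
  have key : ∃ η > 0, ∀ r ∈ Ioo 0 η, p.real (closedBall x r) ≤ (2 * C + 1) * h r := by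
    refine iter' g (M := p.real univ) (δ := min δ (δ' / 2)) (by positivity) hC
      (fun r => measureReal_mono (subset_univ _)) (by positivity) fun r hr => ?_
    have hr0 := hr.1
    have hr1 := lt_min_iff.1 hr.2
    have hc : Continuous fun y : E N => ph N (r⁻¹ • (y - x)) := (ph N).continuous.comp (by fun_prop)
    have hn : ∀ y : E N, ‖r⁻¹ • (y - x)‖ = dist y x / r := fun y => by
      rw [norm_smul, norm_inv, Real.norm_of_nonneg hr0.le, dist_eq_norm, div_eq_inv_mul]
    have k1 : p.real (closedBall x r) ≤ ∫ y, ph N (r⁻¹ • (y - x)) ∂p := by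
      rw [← integral_indicator_one measurableSet_closedBall]
      refine integral_mono_of_nonneg (Eventually.of_forall fun y =>
        indicator_nonneg (fun _ _ => zero_le_one) _) ((integrable_const 1).mono'
          hc.aestronglyMeasurable (Eventually.of_forall fun y => by
            rw [Real.norm_of_nonneg (ph N).nonneg]; exact (ph N).le_one))
        (Eventually.of_forall fun y => ?_)
      by_cases hy : y ∈ closedBall x r
      · simp only [indicator_of_mem hy]
        rw [(ph N).one_of_mem_closedBall (by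
          rw [mem_closedBall_zero_iff, hn]; exact (div_le_one hr0).2 hy)]
        rfl
      · simp only [indicator_of_notMem hy]
        exact (ph N).nonneg
    have k2 : ∫ y, ph N (r⁻¹ • (y - x)) ∂q ≤ q.real (closedBall x (2 * r)) := by
      rw [← integral_indicator_one measurableSet_closedBall]
      refine integral_mono_of_nonneg (Eventually.of_forall fun y => (ph N).nonneg)
        ((integrable_const 1).indicator measurableSet_closedBall)
        (Eventually.of_forall fun y => ?_)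
      by_cases hy : y ∈ closedBall x (2 * r)
      · simp only [indicator_of_mem hy]
        exact (ph N).le_one
      simp only [indicator_of_notMem hy]
      refine ((ph N).zero_of_le_dist ?_).le
      rw [dist_zero_right, hn]
      exact (le_div_iff₀ hr0).2 (not_le.1 hy).le
    have := k3 (2 * r) ⟨by linarith, by linarith⟩
    linarith [hx r ⟨hr0, hr1.1⟩]
  obtain ⟨η, hη, hk⟩ := key
  refine ⟨min η δ', by positivity, fun r hr => ?_⟩
  have hr1 := lt_min_iff.1 hr.2
  have e1 := hk r ⟨hr.1, hr1.1⟩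
  have e2 := k3 r ⟨hr.1, hr1.2⟩
  have e3 : (2 * D)⁻¹ ≤ 1 := inv_le_one_of_one_le₀ (by linarith)
  have e4 : 0 ≤ p.real (closedBall x r) := measureReal_nonneg
  rw [measureReal_add_apply]
  nlinarith

end KS6_84.Hld
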