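import Pool.Agent.KS6_84.Hld.Newton

set_option autoImplicit false

namespace KS6_84.Hld

open MeasureTheory Filter Topology Metric Set Pool.Agent.H.MP_19b229_an
open scoped ENNReal NNReal ContDiff

variable {N : ℕ}

lemma int_fderiv_zero {F : Type*} [NormedAddCommGroup F] [NormedSpace ℝ F] [CompleteSpace F]
    (ψ : E N → F) (h1 : ContDiff ℝ 1 ψ) (h2 : HasCompactSupport ψ) :
    ∫ x, fderiv ℝ ψ x = 0 := by
  have hc : Continuous (fderiv ℝ ψ) := h1.continuous_fderiv (by norm_num)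
  have hs : HasCompactSupport (fderiv ℝ ψ) := h2.fderiv ℝ
  have hi : Integrable (fderiv ℝ ψ) := hc.integrable_of_hasCompactSupport hs
  ext v
  rw [ContinuousLinearMap.integral_apply hi, zero_apply]
  have hv : Integrable fun x => fderiv ℝ ψ x v := hi.apply_continuousLinearMap v
  have := integral_bilinear_hasLineDerivAt_right_eq_neg_left_of_integrable
    (μ := (volume : Measure (E N))) (f := fun _ : E N => (1 : ℝ)) (f' := fun _ => 0) (g := ψ)
    (g' := fun x => fderiv ℝ ψ x v) (v := v) (B := ContinuousLinearMap.lsmul ℝ ℝ)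
    (by simp) (by simpa using hv) (by simpa using h1.continuous.integrable_of_hasCompactSupport h2)
    (fun x _ => (hasFDerivAt_const (1 : ℝ) x).hasLineDerivAt v)
    (fun x _ => ((h1.differentiable (by norm_num)) x).hasFDerivAt.hasLineDerivAt v)
  simpa using this

lemma int_fderiv_L {F : Type*} [NormedAddCommGroup F] [NormedSpace ℝ F] [CompleteSpace F]
    (ψ : E N → F) (h1 : ContDiff ℝ 1 ψ) (h2 : HasCompactSupport ψ) (L : (E N →L[ℝ] F) →L[ℝ] ℝ) :
    ∫ x, L (fderiv ℝ ψ x) = 0 := by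
  have hi : Integrable (fderiv ℝ ψ) :=
    (h1.continuous_fderiv (by norm_num)).integrable_of_hasCompactSupport (h2.fderiv ℝ)
  rw [L.integral_comp_comm hi, int_fderiv_zero ψ h1 h2, map_zero]

/-- The homogeneous constant-coefficient operator of order `m` given by the functional `T` on
`m`-linear forms: `P(D) φ (x) = T (D^m φ (x))`. -/
noncomputable def PD {m : ℕ} (T : (E N [×m]→L[ℝ] ℝ) →L[ℝ] ℝ) (φ : E N → ℝ) (x : E N) : ℝ :=
  T (iteratedFDeriv ℝ m φ x)

lemma PD_cont {m : ℕ} (T : (E N [×m]→L[ℝ] ℝ) →L[ℝ] ℝ) {φ : E N → ℝ} (h : ContDiff ℝ ∞ φ) :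
    Continuous (PD T φ) :=
  T.continuous.comp (h.continuous_iteratedFDeriv (by exact_mod_cast le_top))

lemma PD_supp {m : ℕ} (T : (E N [×m]→L[ℝ] ℝ) →L[ℝ] ℝ) {φ : E N → ℝ} {x : E N}
    (hx : x ∉ tsupport φ) : PD T φ x = 0 := by
  have : iteratedFDeriv ℝ m φ x = 0 := by
    by_contra h
    exact hx (support_iteratedFDeriv_subset (𝕜 := ℝ) (f := φ) m h)
  rw [PD, this, map_zero]

lemma PD_int {m : ℕ} (T : (E N [×(m + 1)]→L[ℝ] ℝ) →L[ℝ] ℝ) {φ : E N → ℝ} (h : ContDiff ℝ ∞ φ)
    (hs : HasCompactSupport φ) : ∫ x, PD T φ x = 0 := by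
  have h1 : ContDiff ℝ 1 (iteratedFDeriv ℝ m φ) :=
    h.iteratedFDeriv_right (by exact_mod_cast le_top)
  have h2 : HasCompactSupport (iteratedFDeriv ℝ m φ) := hs.iteratedFDeriv m
  let L : (E N →L[ℝ] (E N [×m]→L[ℝ] ℝ)) →L[ℝ] ℝ :=
    T.comp ((continuousMultilinearCurryLeftEquiv ℝ (fun _ : Fin (m + 1) => E N)
      ℝ).symm.toContinuousLinearEquiv : _ →L[ℝ] _)
  have h4 : ∀ x, PD T φ x = L (fderiv ℝ (iteratedFDeriv ℝ m φ) x) := fun x => by
    rw [PD, iteratedFDeriv_succ_eq_comp_left]; rfl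
  simp only [h4]
  exact int_fderiv_L _ h1 h2 L

lemma PD_scale {m : ℕ} (T : (E N [×m]→L[ℝ] ℝ) →L[ℝ] ℝ) {φ : E N → ℝ} (h : ContDiff ℝ ∞ φ)
    (x : E N) (r : ℝ) (y : E N) :
    PD T (fun y => φ (r⁻¹ • (y - x))) y = (r ^ m)⁻¹ * PD T φ (r⁻¹ • (y - x)) := by
  let g : E N →L[ℝ] E N := r⁻¹ • ContinuousLinearMap.id ℝ (E N)
  have e1 : iteratedFDeriv ℝ m (fun y => φ (r⁻¹ • (y - x))) y =
      iteratedFDeriv ℝ m (φ ∘ g) (y - x) :=
    iteratedFDeriv_comp_sub (𝕜 := ℝ) (f := φ ∘ g) m x y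
  have e2 : iteratedFDeriv ℝ m (φ ∘ g) (y - x) =
      (iteratedFDeriv ℝ m φ (g (y - x))).compContinuousLinearMap fun _ => g :=
    g.iteratedFDeriv_comp_right h (y - x) (by exact_mod_cast le_top)
  have e3 : (iteratedFDeriv ℝ m φ (g (y - x))).compContinuousLinearMap (fun _ => g) =
      (r ^ m)⁻¹ • iteratedFDeriv ℝ m φ (r⁻¹ • (y - x)) := by
    ext v
    simp only [ContinuousMultilinearMap.compContinuousLinearMap_apply, smul_apply, g,
      ContinuousLinearMap.id_apply]
    rw [ContinuousMultilinearMap.map_smul_univ]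
    simp
  rw [PD, e1, e2, e3, map_smul, PD, smul_eq_mul]

lemma pde_test {m : ℕ} (T : (E N [×(m + 1)]→L[ℝ] ℝ) →L[ℝ] ℝ) : ∃ K, 0 ≤ K ∧
    ∀ (Ω : Set (E N)), IsOpen Ω → ∀ (μ : SignedMeasure (E N)) (u : E N → ℝ),
    LocallyIntegrableOn u Ω →
    (∀ φ : E N → ℝ, ContDiff ℝ ∞ φ → HasCompactSupport φ → tsupport φ ⊆ Ω →
      ∫ x, u x * PD T φ x = ∫ x, φ x ∂μ.toJordanDecomposition.posPart -
        ∫ x, φ x ∂μ.toJordanDecomposition.negPart) →
    ∀ x ∈ Ω, ∃ δ > 0, ∀ r ∈ Ioo 0 δ, ∀ c : ℝ,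
      |∫ y, ph N (r⁻¹ • (y - x)) ∂μ.toJordanDecomposition.posPart -
        ∫ y, ph N (r⁻¹ • (y - x)) ∂μ.toJordanDecomposition.negPart| ≤
      K * (r ^ (m + 1))⁻¹ * ∫ y in closedBall x (2 * r), |u y - c| := by
  have hφ : ContDiff ℝ ∞ (ph N) := (ph N).contDiff
  have hφs : HasCompactSupport (ph N) := (ph N).hasCompactSupport
  have hts : tsupport (ph N) = closedBall 0 2 := (ph N).tsupport_eq
  have hWs : HasCompactSupport (PD T (ph N)) := by
    refine HasCompactSupport.intro (isCompact_closedBall (0 : E N) 2) fun z hz => PD_supp T ?_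
    rwa [hts]
  obtain ⟨W₀, hW₀⟩ := (PD_cont T hφ).bounded_above_of_compact_support hWs
  have hW0 : 0 ≤ W₀ := (norm_nonneg _).trans (hW₀ 0)
  refine ⟨W₀, hW0, fun Ω ho μ u hu heq x hx => ?_⟩
  obtain ⟨δ, hδ, hsub⟩ := Metric.isOpen_iff.1 ho x hx
  refine ⟨δ / 2, by positivity, fun r hr c => ?_⟩
  have hr0 := hr.1
  have hK : closedBall x (2 * r) ⊆ Ω := (closedBall_subset_ball (by linarith [hr.2])).trans hsub
  have hcd : ContDiff ℝ ∞ fun y : E N => ph N (r⁻¹ • (y - x)) :=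
    hφ.comp (by fun_prop)
  have hsupp : tsupport (fun y : E N => ph N (r⁻¹ • (y - x))) ⊆ closedBall x (2 * r) := by
    refine closure_minimal (fun y hy => ?_) isClosed_closedBall
    by_contra hy'
    apply hy
    refine (ph N).zero_of_le_dist ?_
    rw [mem_closedBall, not_le] at hy'
    rw [dist_zero_right, norm_smul, norm_inv, Real.norm_of_nonneg hr0.le, ← dist_eq_norm,
      ← div_eq_inv_mul]
    exact (le_div_iff₀ hr0).2 hy'.le
  have hcs : HasCompactSupport fun y : E N => ph N (r⁻¹ • (y - x)) :=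
    (isCompact_closedBall x (2 * r)).of_isClosed_subset (isClosed_tsupport _) hsupp
  rw [← heq _ hcd hcs (hsupp.trans hK)]
  have hint : IntegrableOn u (closedBall x (2 * r)) :=
    hu.integrableOn_compact_subset hK (isCompact_closedBall _ _)
  have hPc : Continuous (PD T fun y : E N => ph N (r⁻¹ • (y - x))) := PD_cont T hcd
  have hPz : ∀ y, y ∉ closedBall x (2 * r) → PD T (fun y : E N => ph N (r⁻¹ • (y - x))) y = 0 :=
    fun y hy => PD_supp T fun h => hy (hsupp h)
  have hP0 := PD_int T hcd hcs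
  have hPb : ∀ y, |PD T (fun y : E N => ph N (r⁻¹ • (y - x))) y| ≤ W₀ * (r ^ (m + 1))⁻¹ := fun y => by
    rw [PD_scale T hφ x r y, abs_mul, abs_of_pos (by positivity), mul_comm]
    gcongr
    exact hW₀ _
  -- subtract the constant
  have hPi : Integrable (PD T fun y : E N => ph N (r⁻¹ • (y - x))) :=
    hPc.integrable_of_hasCompactSupport (HasCompactSupport.intro (isCompact_closedBall x (2 * r)) hPz)
  have hui : Integrable fun y => u y * PD T (fun y : E N => ph N (r⁻¹ • (y - x))) y := by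
    rw [← integrableOn_iff_integrable_of_support_subset (s := closedBall x (2 * r)) (fun y hy => by
      by_contra h; apply hy; simp only [hPz y h, mul_zero])]
    exact hint.mul_bdd (c := W₀ * (r ^ (m + 1))⁻¹) hPc.aestronglyMeasurable
      (Eventually.of_forall hPb)
  have e1 : ∫ y, u y * PD T (fun y : E N => ph N (r⁻¹ • (y - x))) y =
      ∫ y, (u y - c) * PD T (fun y : E N => ph N (r⁻¹ • (y - x))) y := by
    have : ∀ y, (u y - c) * PD T (fun y : E N => ph N (r⁻¹ • (y - x))) y =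
      u y * PD T (fun y : E N => ph N (r⁻¹ • (y - x))) y -
        c * PD T (fun y : E N => ph N (r⁻¹ • (y - x))) y := fun y => by ring
    simp only [this]
    rw [integral_sub hui (hPi.const_mul c), integral_const_mul, hP0, mul_zero, sub_zero]
  have iF : Integrable ((closedBall x (2 * r)).indicator fun y => |u y - c|) :=
    IntegrableOn.integrable_indicator
      (hint.sub (integrableOn_const (measure_closedBall_lt_top.ne))).abs measurableSet_closedBall
  rw [e1, ← Real.norm_eq_abs]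
  refine (norm_integral_le_of_norm_le (iF.const_mul (W₀ * (r ^ (m + 1))⁻¹))
    (Eventually.of_forall fun y => ?_)).trans_eq ?_
  · by_cases hy : y ∈ closedBall x (2 * r)
    · rw [indicator_of_mem hy, norm_mul, Real.norm_eq_abs, Real.norm_eq_abs, mul_comm]
      gcongr
      exact hPb y
    · rw [indicator_of_notMem hy, hPz y hy]
      simp
  · rw [integral_const_mul, integral_indicator measurableSet_closedBall]

end KS6_84.Hld
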