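import Pool.Agent.KS6_84.Hld.Conv
import Pool.Agent.KS6_84.Hld.PDE

set_option autoImplicit false

namespace KS6_84.Hld

open MeasureTheory Filter Topology Metric Set Pool.Agent.H.MP_19b229_an
open scoped ENNReal NNReal ContDiff

variable {N : ℕ}

/-- The fundamental solution of `-Δ` on `ℝ^N`: `-(1/2π) log ‖z‖` for `N = 2`, and
`‖z‖^(2-N) / (N (N-2) ω_N)` for `N ≥ 3`, `ω_N` being the volume of the unit ball. -/
noncomputable def fundSol (N : ℕ) (z : E N) : ℝ :=
  if N = 2 then -(1 / (2 * Real.pi)) * Real.log ‖z‖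
  else 1 / ((N : ℝ) * ((N : ℝ) - 2) * (volume (ball (0 : E N) 1)).toReal) * ‖z‖ ^ (2 - (N : ℝ))

/-- The Newtonian potential of a finite signed measure. -/
noncomputable def newton (μ : SignedMeasure (E N)) (x : E N) : ℝ :=
  (∫ y, fundSol N (x - y) ∂μ.toJordanDecomposition.posPart)
    - ∫ y, fundSol N (x - y) ∂μ.toJordanDecomposition.negPart

lemma newton_eq (hN : 2 ≤ N) : ∃ c₀ : ℝ, c₀ ≠ 0 ∧ ∀ μ : SignedMeasure (E N),
    newton μ = pot c₀ μ := by
  by_cases e : N = 2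
  · refine ⟨1 / (2 * Real.pi), by positivity, fun μ => ?_⟩
    funext x
    have : ∀ z : E N, fundSol N z = 1 / (2 * Real.pi) * Gam N z := fun z => by
      simp only [fundSol, Gam, if_pos e]; ring
    simp only [newton, pot, this]
  · have h3 : (3 : ℝ) ≤ N := by
      have : 3 ≤ N := by omega
      exact_mod_cast this
    have hV : 0 < (volume (ball (0 : E N) 1)).toReal :=
      ENNReal.toReal_pos (measure_ball_pos _ _ one_pos).ne' measure_ball_lt_top.ne
    refine ⟨1 / ((N : ℝ) * ((N : ℝ) - 2) * (volume (ball (0 : E N) 1)).toReal), ?_, fun μ => ?_⟩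
    · have : 0 < (N : ℝ) - 2 := by linarith
      have : 0 < (N : ℝ) := by linarith
      positivity
    · funext x
      have : ∀ z : E N, fundSol N z =
          1 / ((N : ℝ) * ((N : ℝ) - 2) * (volume (ball (0 : E N) 1)).toReal) * Gam N z := fun z => by
        simp only [fundSol, Gam, if_neg e]
      simp only [newton, pot, this]

lemma unif {h : ℝ → ℝ} {D : ℝ} (g : Gauge h D) (μ : SignedMeasure (E N)) {m : ℕ}
    {u : E N → ℝ} {K : ℝ} (hK : 0 ≤ K)
    (hd : ∀ h', Gauge h' D → ∀ᵐ x ∂μ.totalVariation, ∀ M, Osc h' m u M x →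
      Dens h' μ.totalVariation (2 * (2 * (K * M * 2 ^ m * D) + 1)) x) {M : ℝ} (hM : 0 < M)
    (ho : ∀ᵐ x ∂μ.totalVariation, Osc h m u M x) :
    μ.totalVariation ≤ ENNReal.ofReal (2 * (2 * (K * 2 ^ m * D) + 1) * M) • HM N h := by
  have hD := g.one_le
  have g' : Gauge (fun r => M * h r) D :=
    { zero := by rw [g.zero, mul_zero]
      pos := fun r hr => mul_pos hM (g.pos r hr)
      mono := fun r s hr hrs => mul_le_mul_of_nonneg_left (g.mono r s hr hrs) hM.le
      lim := by simpa using g.lim.const_mul M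
      dbl := fun r hr => by nlinarith [g.dbl r hr] }
  have h1 : ∀ᵐ x ∂μ.totalVariation,
      Dens h μ.totalVariation (2 * (2 * (K * 2 ^ m * D) + 1) * M) x := by
    filter_upwards [hd _ g', ho] with x hx ⟨δ, hδ, hox⟩
    obtain ⟨η, hη, hη'⟩ := hx 1 ⟨δ, hδ, fun r hr => by
      obtain ⟨c, hc⟩ := hox r hr
      exact ⟨c, hc.trans_eq (by ring)⟩⟩
    exact ⟨η, hη, fun r hr => (hη' r hr).trans_eq (by ring)⟩
  have h2 := frost' g μ.totalVariation (C := 2 * (2 * (K * 2 ^ m * D) + 1) * M) (by positivity)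
    {x | Dens h μ.totalVariation (2 * (2 * (K * 2 ^ m * D) + 1) * M) x} fun x hx => hx
  have h3 : μ.totalVariation.restrict
      {x | Dens h μ.totalVariation (2 * (2 * (K * 2 ^ m * D) + 1) * M) x} = μ.totalVariation :=
    Measure.restrict_eq_self_of_ae_mem h1
  rwa [h3] at h2

lemma ae_bdd {Ω : Set (E N)} (hb : Bornology.IsBounded Ω) (μ : SignedMeasure (E N))
    (hμ : μ.totalVariation Ωᶜ = 0) : ∃ R, ∀ᵐ y ∂μ.totalVariation, ‖y‖ ≤ R := by
  obtain ⟨R, hR⟩ := hb.exists_norm_le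
  exact ⟨R, (show ∀ᵐ y ∂μ.totalVariation, y ∈ Ω from hμ).mono hR⟩

/-- Newtonian potentials: the density estimate. -/
theorem newton_dens (hN : 2 ≤ N) : ∃ K, 0 ≤ K ∧ ∀ (h : ℝ → ℝ) (D : ℝ), Gauge h D →
    ∀ (Ω : Set (E N)), Bornology.IsBounded Ω → ∀ μ : SignedMeasure (E N),
    μ.totalVariation Ωᶜ = 0 → ∀ᵐ x ∂μ.totalVariation, ∀ M, Osc h 2 (newton μ) M x →
      Dens h μ.totalVariation (2 * (2 * (K * M * 2 ^ 2 * D) + 1)) x := by
  obtain ⟨c₀, hc₀, he⟩ := newton_eq (N := N) hN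
  obtain ⟨K, hK, ht⟩ := newton_test (N := N) hN hc₀
  refine ⟨K, hK, fun h D g Ω hb μ hμ => ?_⟩
  obtain ⟨R, hR⟩ := ae_bdd hb μ hμ
  rw [he]
  exact dens_of_test g μ hK hμ fun x _ => ⟨1, one_pos, fun r hr c => ht μ R hR x r hr.1 c⟩

/-- Modulus of continuity at `x` implies small mean oscillation at `x`. -/
lemma osc_of_modulus (hN : 2 ≤ N) {w : ℝ → ℝ} (hw : ∀ s t, 0 ≤ s → s ≤ t → w s ≤ w t) {K : ℝ}
    (hK : 0 ≤ K) {Ω : Set (E N)} (ho : IsOpen Ω) {u v : E N → ℝ}
    (hv : ∀ x ∈ Ω, ∀ y ∈ Ω, |v x - v y| ≤ K * w (dist x y))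
    (huv : ∀ᵐ x ∂volume.restrict Ω, u x = v x) {x : E N} (hx : x ∈ Ω) :
    Osc (fun r => r ^ (N - 2) * w r) 2 u (K * (volume (ball (0 : E N) 1)).toReal) x := by
  obtain ⟨δ, hδ, hsub⟩ := Metric.isOpen_iff.1 ho x hx
  refine ⟨δ, hδ, fun r hr => ⟨v x, ?_⟩⟩
  have hK' : closedBall x r ⊆ Ω := (closedBall_subset_ball hr.2).trans hsub
  have h1 : ‖∫ y in closedBall x r, |u y - v x|‖ ≤
      K * w r * (volume : Measure (E N)).real (closedBall x r) := by
    refine norm_setIntegral_le_of_norm_le_const_ae' measure_closedBall_lt_top ?_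
    filter_upwards [(ae_restrict_iff' ho.measurableSet).1 huv] with y hy hyb
    rw [hy (hK' hyb), Real.norm_eq_abs, abs_abs]
    refine (hv y (hK' hyb) x hx).trans ?_
    gcongr
    exact hw _ _ dist_nonneg hyb
  have h2 : (volume : Measure (E N)).real (closedBall x r) =
      r ^ N * (volume (ball (0 : E N) 1)).toReal := by
    rw [Measure.real, Measure.addHaar_closedBall _ _ hr.1.le, finrank_euclideanSpace,
      Fintype.card_fin, ENNReal.toReal_mul, ENNReal.toReal_ofReal (by have := hr.1; positivity)]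
  refine (Real.le_norm_self _).trans (h1.trans_eq ?_)
  rw [h2]
  obtain ⟨n, rfl⟩ : ∃ n, N = n + 2 := ⟨N - 2, by omega⟩
  rw [Nat.add_sub_cancel, pow_add]
  ring

lemma gauge_rpow {s : ℝ} (hs : 0 < s) : Gauge (fun r : ℝ => r ^ s) (2 ^ s) where
  zero := Real.zero_rpow hs.ne'
  pos := fun r hr => Real.rpow_pos_of_pos hr s
  mono := fun r t hr hrt => Real.rpow_le_rpow hr.le hrt hs.le
  lim := by
    have := (Real.continuousAt_rpow_const 0 s (Or.inr hs.le)).tendsto
    rw [Real.zero_rpow hs.ne'] at this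
    exact tendsto_nhdsWithin_of_tendsto_nhds this
  dbl := fun r hr => (Real.mul_rpow (by norm_num) hr.le).le

lemma HM_rpow {s : ℝ} (hs : 0 < s) : HM N (fun r : ℝ => r ^ s) = μH[s] := by
  have h : ∀ᶠ d in 𝓝 (0 : ℝ≥0∞), ENNReal.ofReal (d.toReal ^ s) = d ^ s := by
    have : ∀ᶠ d in 𝓝 (0 : ℝ≥0∞), d < ⊤ := gt_mem_nhds ENNReal.zero_lt_top
    filter_upwards [this] with d hd
    rw [← ENNReal.ofReal_rpow_of_nonneg ENNReal.toReal_nonneg hs.le, ENNReal.ofReal_toReal hd.ne]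
  exact le_antisymm (Measure.mkMetric_mono (h.mono fun d hd => hd.le))
    (Measure.mkMetric_mono (h.mono fun d hd => hd.ge))

end KS6_84.Hld
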