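import Pool.Agent.KS6_84.Hld.Approx

set_option autoImplicit false

namespace KS6_84.Hld

open MeasureTheory Filter Topology Metric Set Pool.Agent.H.MP_19b229_an
open scoped ENNReal NNReal

variable {N : ℕ}

/-- Mean oscillation at the point `x`: for every small `r` there is a constant `c` with
`∫_{B(x,r)} |u - c| ≤ M r^m h(r)`. -/
def Osc (h : ℝ → ℝ) (m : ℕ) (u : E N → ℝ) (M : ℝ) (x : E N) : Prop :=
  ∃ δ > 0, ∀ r ∈ Ioo 0 δ, ∃ c : ℝ, ∫ y in closedBall x r, |u y - c| ≤ M * r ^ m * h r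

lemma Osc.nonneg {h : ℝ → ℝ} {D : ℝ} (g : Gauge h D) {m : ℕ} {u : E N → ℝ} {M : ℝ} {x : E N}
    (ho : Osc h m u M x) : 0 ≤ M := by
  obtain ⟨δ, h0, hx⟩ := ho
  obtain ⟨c, hc⟩ := hx (δ / 2) ⟨by positivity, by linarith⟩
  have h1 : 0 ≤ ∫ y in closedBall x (δ / 2), |u y - c| := integral_nonneg fun _ => abs_nonneg _
  have h2 := g.pos (δ / 2) (by positivity)
  have h3 : 0 < (δ / 2) ^ m * h (δ / 2) := by positivity
  by_contra hM
  push Not at hM
  nlinarith

/-- From a test-function inequality to the density bound. -/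
lemma dens_of_test {h : ℝ → ℝ} {D : ℝ} (g : Gauge h D) (μ : SignedMeasure (E N)) {m : ℕ}
    {u : E N → ℝ} {K : ℝ} (hK : 0 ≤ K) {Ω : Set (E N)} (hμ : μ.totalVariation Ωᶜ = 0)
    (ht : ∀ x ∈ Ω, ∃ δ > 0, ∀ r ∈ Ioo 0 δ, ∀ c : ℝ,
      |∫ y, ph N (r⁻¹ • (y - x)) ∂μ.toJordanDecomposition.posPart -
        ∫ y, ph N (r⁻¹ • (y - x)) ∂μ.toJordanDecomposition.negPart| ≤
      K * (r ^ m)⁻¹ * ∫ y in closedBall x (2 * r), |u y - c|) :
    ∀ᵐ x ∂μ.totalVariation, ∀ M, Osc h m u M x →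
      Dens h μ.totalVariation (2 * (2 * (K * M * 2 ^ m * D) + 1)) x := by
  have hD := g.one_le
  have hm := μ.toJordanDecomposition.mutuallySingular
  rw [SignedMeasure.totalVariation, Measure.add_apply, add_eq_zero] at hμ
  unfold SignedMeasure.totalVariation
  set p := μ.toJordanDecomposition.posPart
  set q := μ.toJordanDecomposition.negPart
  have key : ∀ x ∈ Ω, ∀ M, Osc h m u M x → 0 ≤ K * M * 2 ^ m * D ∧ ∃ δ > 0, ∀ r ∈ Ioo 0 δ,
      |∫ y, ph N (r⁻¹ • (y - x)) ∂p - ∫ y, ph N (r⁻¹ • (y - x)) ∂q| ≤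
        K * M * 2 ^ m * D * h r := by
    intro x hx M ho
    have hM := ho.nonneg g
    obtain ⟨δ, h0, h1⟩ := ho
    obtain ⟨δ', h0', h1'⟩ := ht x hx
    refine ⟨by positivity, min δ' (δ / 2), by positivity, fun r hr => ?_⟩
    have hr1 := lt_min_iff.1 hr.2
    have hr0 := hr.1
    obtain ⟨c, hc⟩ := h1 (2 * r) ⟨by linarith, by linarith⟩
    refine (h1' r ⟨hr0, hr1.1⟩ c).trans ?_
    have h2 := g.dbl r hr0
    calc K * (r ^ m)⁻¹ * ∫ y in closedBall x (2 * r), |u y - c|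
        ≤ K * (r ^ m)⁻¹ * (M * (2 * r) ^ m * h (2 * r)) := by gcongr
      _ ≤ K * (r ^ m)⁻¹ * (M * (2 * r) ^ m * (D * h r)) := by gcongr
      _ = _ := by rw [mul_pow]; field_simp
  rw [ae_add_measure_iff]
  constructor
  · filter_upwards [dens' g p q hm.symm, (show ∀ᵐ x ∂p, x ∈ Ω from hμ.1)] with x hx hxΩ M ho
    obtain ⟨k0, δ, h0, h1⟩ := key x hxΩ M ho
    exact hx _ k0 ⟨δ, h0, fun r hr => (le_abs_self _).trans (h1 r hr)⟩
  · filter_upwards [dens' g q p hm, (show ∀ᵐ x ∂q, x ∈ Ω from hμ.2)] with x hx hxΩ M ho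
    obtain ⟨k0, δ, h0, h1⟩ := key x hxΩ M ho
    rw [add_comm p q]
    exact hx _ k0 ⟨δ, h0, fun r hr => (le_abs_self _).trans ((abs_sub_comm _ _).trans_le (h1 r hr))⟩

lemma prod_int (h : 2 ≤ N) (ν : Measure (E N)) [IsFiniteMeasure ν] {R : ℝ}
    (hν : ∀ᵐ y ∂ν, ‖y‖ ≤ R) (a : E N) (s : ℝ) :
    Integrable (fun p : E N × E N => Gam N (p.1 - p.2))
      ((volume.restrict (closedBall a s)).prod ν) := by
  have hm : Measurable fun p : E N × E N => Gam N (p.1 - p.2) := Gam_meas.comp (by fun_prop)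
  have h1 : IntegrableOn (Gam N) (closedBall 0 (‖a‖ + s + R)) :=
    (Gam_li h).integrableOn_isCompact (isCompact_closedBall _ _)
  refine (integrable_prod_iff' hm.aestronglyMeasurable).2
    ⟨Eventually.of_forall fun y => (Gam_sh h y).integrableOn_isCompact (isCompact_closedBall _ _), ?_⟩
  refine (integrable_const (∫ z in closedBall 0 (‖a‖ + s + R), ‖Gam N z‖)).mono'
      hm.norm.aestronglyMeasurable.prod_swap.integral_prod_right' (hν.mono fun y hy => ?_)
  rw [Real.norm_of_nonneg (integral_nonneg fun _ => norm_nonneg _)]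
  have e1 : ∫ x in closedBall a s, ‖Gam N (x - y)‖ =
      ∫ z in (fun z => z + y) ⁻¹' closedBall a s, ‖Gam N z‖ := by
    have := (measurePreserving_add_right (volume : Measure (E N)) y).setIntegral_preimage_emb
      (measurableEmbedding_addRight y) (fun x => ‖Gam N (x - y)‖) (closedBall a s)
    rw [← this]
    simp
  rw [e1]
  refine setIntegral_mono_set h1.norm (Eventually.of_forall fun _ => norm_nonneg _)
    (LE.le.eventuallyLE fun z hz => ?_)
  rw [mem_preimage, mem_closedBall, dist_eq_norm] at hz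
  rw [mem_closedBall_zero_iff]
  have : z = (z + y - a) + a - y := by abel
  rw [this]
  have := norm_sub_le (z + y - a + a) y
  have := norm_add_le (z + y - a) a
  linarith

lemma pot_int (h : 2 ≤ N) (ν : Measure (E N)) [IsFiniteMeasure ν] {R : ℝ}
    (hν : ∀ᵐ y ∂ν, ‖y‖ ≤ R) (a : E N) (s : ℝ) :
    IntegrableOn (fun z => ∫ y, Gam N (z - y) ∂ν) (closedBall a s) :=
  (prod_int h ν hν a s).integral_prod_left

lemma pot_intOn (h : 2 ≤ N) (c₀ : ℝ) (μ : SignedMeasure (E N)) {R : ℝ}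
    (hμ : ∀ᵐ y ∂μ.totalVariation, ‖y‖ ≤ R) (a : E N) (s : ℝ) :
    IntegrableOn (pot c₀ μ) (closedBall a s) := by
  rw [SignedMeasure.totalVariation, ae_add_measure_iff] at hμ
  have h1 := (pot_int h _ hμ.1 a s).const_mul c₀
  have h2 := (pot_int h _ hμ.2 a s).const_mul c₀
  refine (h1.sub h2).congr (Eventually.of_forall fun z => ?_)
  simp only [pot, integral_const_mul, Pi.sub_apply]

lemma newton_test (hN : 2 ≤ N) {c₀ : ℝ} (hc : c₀ ≠ 0) : ∃ K, 0 ≤ K ∧
    ∀ (μ : SignedMeasure (E N)) (R : ℝ), (∀ᵐ y ∂μ.totalVariation, ‖y‖ ≤ R) →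
    ∀ (x : E N) (r : ℝ), 0 < r → ∀ c : ℝ,
      |∫ y, ph N (r⁻¹ • (y - x)) ∂μ.toJordanDecomposition.posPart -
        ∫ y, ph N (r⁻¹ • (y - x)) ∂μ.toJordanDecomposition.negPart| ≤
      K * (r ^ 2)⁻¹ * ∫ y in closedBall x (2 * r), |pot c₀ μ y - c| := by
  obtain ⟨κ, hκ0, hκ⟩ := fund hN
  obtain ⟨M₀, hM₀⟩ := DD_c.bounded_above_of_compact_support (DD_s (N := N))
  have hM0 : 0 ≤ M₀ := (norm_nonneg _).trans (hM₀ 0)
  have hck : 0 < |c₀ * κ| := abs_pos.2 (mul_ne_zero hc hκ0)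
  refine ⟨M₀ / |c₀ * κ|, by positivity, fun μ R hμ x r hr c => ?_⟩
  have hint := pot_intOn hN c₀ μ hμ x (2 * r)
  rw [SignedMeasure.totalVariation, ae_add_measure_iff] at hμ
  obtain ⟨i1, e1⟩ := pair hN hκ _ hμ.1 x hr
  obtain ⟨i2, e2⟩ := pair hN hκ _ hμ.2 x hr
  have iD := DD_c.integrable_of_hasCompactSupport (μ := volume) (DD_s (N := N))
  have e3 : c₀ * (r ^ (2 - N : ℝ) * κ) * (∫ y, ph N (r⁻¹ • (y - x)) ∂μ.toJordanDecomposition.posPart -
      ∫ y, ph N (r⁻¹ • (y - x)) ∂μ.toJordanDecomposition.negPart) =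
      ∫ z, (pot c₀ μ (x + r • z) - c) * DD N z := by
    have e4 : ∀ z, (pot c₀ μ (x + r • z) - c) * DD N z =
        c₀ * ((∫ y, Gam N (x + r • z - y) ∂μ.toJordanDecomposition.posPart) * DD N z) -
          c₀ * ((∫ y, Gam N (x + r • z - y) ∂μ.toJordanDecomposition.negPart) * DD N z) -
          c * DD N z := fun z => by
      simp only [pot, integral_const_mul]; ring
    simp only [e4]
    have i3 : Integrable fun z =>
        c₀ * ((∫ y, Gam N (x + r • z - y) ∂μ.toJordanDecomposition.posPart) * DD N z) -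
        c₀ * ((∫ y, Gam N (x + r • z - y) ∂μ.toJordanDecomposition.negPart) * DD N z) :=
      (i1.const_mul c₀).sub (i2.const_mul c₀)
    rw [integral_sub i3 (iD.const_mul _),
      integral_sub (i1.const_mul c₀) (i2.const_mul c₀), integral_const_mul, integral_const_mul,
      integral_const_mul, e1, e2, DD_int]
    ring
  set F : E N → ℝ := (closedBall x (2 * r)).indicator fun y => |pot c₀ μ y - c| with hF
  have iF : Integrable F := by
    refine IntegrableOn.integrable_indicator ?_ measurableSet_closedBall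
    exact (hint.sub (integrableOn_const (measure_closedBall_lt_top.ne))).abs
  have iF2 : Integrable fun z => F (x + z) := iF.comp_add_left x
  have iF3 : Integrable fun z => F (x + r • z) := iF2.comp_smul hr.ne'
  have e5 : ‖∫ z, (pot c₀ μ (x + r • z) - c) * DD N z‖ ≤ ∫ z, M₀ * F (x + r • z) := by
    refine norm_integral_le_of_norm_le (iF3.const_mul _) (Eventually.of_forall fun z => ?_)
    rcases lt_or_ge 2 ‖z‖ with k | k
    · rw [DD_z k, mul_zero, norm_zero]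
      exact mul_nonneg hM0 (indicator_nonneg (fun _ _ => abs_nonneg _) _)
    · have : x + r • z ∈ closedBall x (2 * r) := by
        rw [mem_closedBall, dist_self_add_left, norm_smul, Real.norm_of_nonneg hr.le]; nlinarith
      rw [hF, indicator_of_mem this, norm_mul, Real.norm_eq_abs, mul_comm M₀]
      gcongr
      exact hM₀ z
  have e6 : ∫ z, F (x + r • z) = (r ^ N)⁻¹ * ∫ y in closedBall x (2 * r), |pot c₀ μ y - c| := by
    have e7 := Measure.integral_comp_smul (volume : Measure (E N)) (fun z => F (x + z)) r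
    rw [e7, integral_add_left_eq_self (fun z => F z) x, hF, integral_indicator measurableSet_closedBall]
    simp only [finrank_euclideanSpace, Fintype.card_fin, smul_eq_mul]
    rw [abs_of_pos (by positivity)]
  rw [integral_const_mul, e6, ← e3, norm_mul, Real.norm_eq_abs, Real.norm_eq_abs] at e5
  have e8 : |c₀ * (r ^ (2 - N : ℝ) * κ)| = |c₀ * κ| * r ^ (2 - N : ℝ) := by
    rw [show c₀ * (r ^ (2 - N : ℝ) * κ) = c₀ * κ * r ^ (2 - N : ℝ) by ring, abs_mul,
      abs_of_pos (Real.rpow_pos_of_pos hr (2 - N : ℝ))]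
  have e9 : r ^ (2 - N : ℝ) = r ^ 2 * (r ^ N)⁻¹ := by
    rw [Real.rpow_sub hr, Real.rpow_natCast, div_eq_mul_inv]
    norm_num
  rw [e8, e9] at e5
  have hrN : 0 < r ^ N := by positivity
  have hr2 : 0 < r ^ 2 := by positivity
  set X := |∫ y, ph N (r⁻¹ • (y - x)) ∂μ.toJordanDecomposition.posPart -
      ∫ y, ph N (r⁻¹ • (y - x)) ∂μ.toJordanDecomposition.negPart|
  set Y := ∫ y in closedBall x (2 * r), |pot c₀ μ y - c|
  have e10 : |c₀ * κ| * (r ^ 2 * (r ^ N)⁻¹) * X = (r ^ N)⁻¹ * (|c₀ * κ| * r ^ 2 * X) := by ring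
  have e11 : M₀ * ((r ^ N)⁻¹ * Y) = (r ^ N)⁻¹ * (M₀ * Y) := by ring
  rw [e10, e11] at e5
  have e12 := le_of_mul_le_mul_left e5 (by positivity)
  rw [show M₀ / |c₀ * κ| * (r ^ 2)⁻¹ * Y = (M₀ * Y) / (|c₀ * κ| * r ^ 2) by field_simp,
    le_div_iff₀ (by positivity)]
  linarith

end KS6_84.Hld
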